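import Mathlib

set_option autoImplicit false

/-!
# Sets thickened by finite sets on blocks: the counting (helper31)
-/

namespace Pool.Agent.J4H31.TS

open Finset

/-- the number of ordered pairs of elements of `B` with sum `n` -/
noncomputable def rep (B : Set ℕ) (n : ℕ) : ℕ := {p : ℕ × ℕ | p.1 ∈ B ∧ p.2 ∈ B ∧ p.1 + p.2 = n}.ncard

theorem rep_finite (B : Set ℕ) (n : ℕ) : {p : ℕ × ℕ | p.1 ∈ B ∧ p.2 ∈ B ∧ p.1 + p.2 = n}.Finite := by
  refine (Finset.finite_toSet (antidiagonal n)).subset ?_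
  rintro p ⟨_, _, h⟩
  simpa using h

theorem card_le_rep (B : Set ℕ) (n : ℕ) (F : Finset (ℕ × ℕ)) (h : ∀ p ∈ F, p.1 ∈ B ∧ p.2 ∈ B ∧ p.1 + p.2 = n) :
    F.card ≤ rep B n := by
  unfold rep
  rw [← Set.ncard_coe_finset]
  exact Set.ncard_le_ncard (fun p hp => h p (by simpa using hp)) (rep_finite B n)

/-- the exchange -/
theorem exchange (B : Set ℕ) (R : ℕ) (hR : ∀ n, rep B n ≤ R) (A : Finset ℕ) (T : Finset ℕ)
    (hAT : ∀ a ∈ A, ∀ s ∈ T, a + s ∈ B) (b : ℕ) :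
    (T.filter fun s => s ≤ b ∧ b - s ∈ A).card ≤ R := by
  rcases (T.filter fun s => s ≤ b ∧ b - s ∈ A).eq_empty_or_nonempty with h | ⟨s₀, hs₀⟩
  · rw [h]; simp
  rw [mem_filter] at hs₀
  obtain ⟨h1, h2, h3⟩ := hs₀
  have hinj : Set.InjOn (fun s => ((b - s₀) + s, (b - s) + s₀)) (T.filter fun s => s ≤ b ∧ b - s ∈ A : Finset ℕ) := by
    intro x _ y _ hxy
    have := (Prod.mk.inj hxy).1
    omega
  rw [← card_image_of_injOn hinj]
  refine (card_le_rep B (2 * b) _ ?_).trans (hR _)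
  intro p hp
  rw [mem_image] at hp
  obtain ⟨s, hs, rfl⟩ := hp
  rw [mem_filter] at hs
  refine ⟨hAT _ h3 _ hs.1, hAT _ hs.2.2 _ h1, ?_⟩
  simp only
  omega

/-- pairs against sums -/
theorem pairs (B : Set ℕ) (R : ℕ) (hR : ∀ n, rep B n ≤ R) (β : ℕ → ℕ) (A : Finset ℕ) (T : ℕ → Finset ℕ)
    (t N K : ℕ) (hA : ∀ a ∈ A, 1 ≤ a ∧ a ≤ N) (ht : ∀ a ∈ A, (T (β a)).card = t)
    (hAT : ∀ a ∈ A, ∀ s ∈ T (β a), a + s ∈ B) (hs : ∀ a ∈ A, ∀ s ∈ T (β a), s ≤ N)
    (hK : ∀ b, ∃ J : Finset ℕ, J.card ≤ K ∧ ∀ a ∈ A, ∀ s ∈ T (β a), a + s = b → β a ∈ J)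
    (BN : Finset ℕ) (hBN : ∀ b, b ∈ BN ↔ b ∈ B ∧ 1 ≤ b ∧ b ≤ 2 * N) :
    t * A.card ≤ K * R * BN.card := by
  classical
  set P : Finset (Σ _ : ℕ, ℕ) := A.sigma fun a => T (β a) with hP
  have hPc : P.card = t * A.card := by
    rw [hP, card_sigma, sum_congr rfl ht, sum_const, smul_eq_mul, mul_comm]
  have h1 := card_le_mul_card_image (f := fun p : (Σ _ : ℕ, ℕ) => p.1 + p.2) P (K * R) (by
    intro b _
    obtain ⟨J, hJ, hJ'⟩ := hK b
    have hsub : (P.filter fun p => p.1 + p.2 = b) ⊆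
        J.biUnion fun j => ((T j).filter fun s => s ≤ b ∧ b - s ∈ A.filter fun a => β a = j).image
          fun s => (⟨b - s, s⟩ : Σ _ : ℕ, ℕ) := by
      rintro ⟨a, s⟩ hp
      rw [mem_filter, hP, mem_sigma] at hp
      obtain ⟨⟨ha, hsT⟩, hab⟩ := hp
      simp only at ha hsT hab
      have h4 : b - s = a := by omega
      rw [mem_biUnion]
      refine ⟨β a, hJ' a ha s hsT hab, ?_⟩
      rw [mem_image]
      refine ⟨s, ?_, by rw [h4]⟩
      rw [mem_filter, h4, mem_filter]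
      exact ⟨hsT, by omega, ha, rfl⟩
    refine (card_le_card hsub).trans (card_biUnion_le.trans ?_)
    have e : ∀ j ∈ J, (((T j).filter fun s => s ≤ b ∧ b - s ∈ A.filter fun a => β a = j).image
        fun s => (⟨b - s, s⟩ : Σ _ : ℕ, ℕ)).card ≤ R := by
      intro j _
      refine card_image_le.trans (exchange B R hR (A.filter fun a => β a = j) (T j) ?_ b)
      intro a ha s hs'
      rw [mem_filter] at ha
      exact hAT a ha.1 s (by rw [ha.2]; exact hs')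
    refine (sum_le_card_nsmul _ _ _ e).trans ?_
    rw [smul_eq_mul]
    exact Nat.mul_le_mul_right _ hJ)
  rw [hPc] at h1
  refine h1.trans (Nat.mul_le_mul_left _ (card_le_card ?_))
  intro b hb
  rw [mem_image] at hb
  obtain ⟨⟨a, s⟩, hp, rfl⟩ := hb
  rw [hP, mem_sigma] at hp
  have ha := hA a hp.1
  have hs' := hs a hp.1 s hp.2
  rw [hBN]
  simp only
  exact ⟨hAT a hp.1 s hp.2, by omega, by omega⟩

/-- the number of elements of a set with bounded representation function -/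
theorem card_sq (B : Set ℕ) (R : ℕ) (hR : ∀ n, rep B n ≤ R) (M : ℕ) (BN : Finset ℕ)
    (hBN : ∀ b, b ∈ BN ↔ b ∈ B ∧ 1 ≤ b ∧ b ≤ M) : BN.card ^ 2 ≤ R * (2 * M) := by
  classical
  have h1 := card_le_mul_card_image (f := fun p : ℕ × ℕ => p.1 + p.2) (BN ×ˢ BN) R (by
    intro n _
    refine (card_le_rep B n _ ?_).trans (hR n)
    intro p hp
    rw [mem_filter, mem_product, hBN, hBN] at hp
    exact ⟨hp.1.1.1, hp.1.2.1, hp.2⟩)
  rw [card_product, ← sq] at h1
  refine h1.trans (Nat.mul_le_mul_left _ ?_)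
  have h2 : (BN ×ˢ BN).image (fun p : ℕ × ℕ => p.1 + p.2) ⊆ Icc 1 (2 * M) := by
    intro n hn
    rw [mem_image] at hn
    obtain ⟨p, hp, rfl⟩ := hn
    rw [mem_product, hBN, hBN] at hp
    rw [mem_Icc]
    omega
  have := card_le_card h2
  simpa using this

/-- a subset of size `t` with at most the average sum -/
theorem select (e : ℕ → ℝ) (t : ℕ) : ∀ (n : ℕ) (S : Finset ℕ), S.card = t + n →
    ∃ T : Finset ℕ, T ⊆ S ∧ T.card = t ∧ (S.card : ℝ) * ∑ s ∈ T, e s ≤ t * ∑ s ∈ S, e s := by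
  intro n
  induction n with
  | zero =>
    intro S hS
    exact ⟨S, Subset.refl _, by simpa using hS, by rw [hS]; simp⟩
  | succ n ih =>
    intro S hS
    have hne : S.Nonempty := by
      rw [← card_pos]; omega
    obtain ⟨x, hx, hmax⟩ := S.exists_max_image e hne
    have hc : (S.erase x).card = t + n := by rw [card_erase_of_mem hx]; omega
    obtain ⟨T, hT, hTc, hle⟩ := ih (S.erase x) hc
    refine ⟨T, hT.trans (erase_subset _ _), hTc, ?_⟩
    rcases Nat.eq_zero_or_pos (t + n) with h0 | h0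
    · have ht0 : t = 0 := by omega
      subst ht0
      rw [card_eq_zero] at hTc
      subst hTc
      simp
    have hsum : ∑ s ∈ S.erase x, e s + e x = ∑ s ∈ S, e s := sum_erase_add S e hx
    have hav : ∑ s ∈ S, e s ≤ (S.card : ℝ) * e x := by
      have := sum_le_card_nsmul S e (e x) hmax
      rwa [nsmul_eq_mul] at this
    have hS' : (S.card : ℝ) = t + n + 1 := by rw [hS]; push_cast; ring
    have hE' : ((S.erase x).card : ℝ) = t + n := by rw [hc]; push_cast; ring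
    rw [hE'] at hle
    rw [hS'] at hav ⊢
    have hp : (0 : ℝ) < (t : ℝ) + n := by exact_mod_cast h0
    have h1 : ((t : ℝ) + n + 1) * ∑ s ∈ S.erase x, e s ≤ ((t : ℝ) + n) * ∑ s ∈ S, e s := by
      nlinarith
    have h2 : ((t : ℝ) + n) * (((t : ℝ) + n + 1) * ∑ s ∈ T, e s) ≤ ((t : ℝ) + n) * (t * ∑ s ∈ S, e s) := by
      have ht0 : (0 : ℝ) ≤ t := by positivity
      calc ((t : ℝ) + n) * (((t : ℝ) + n + 1) * ∑ s ∈ T, e s) = ((t : ℝ) + n + 1) * (((t : ℝ) + n) * ∑ s ∈ T, e s) := by ring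
        _ ≤ ((t : ℝ) + n + 1) * (t * ∑ s ∈ S.erase x, e s) := mul_le_mul_of_nonneg_left hle (by positivity)
        _ = t * (((t : ℝ) + n + 1) * ∑ s ∈ S.erase x, e s) := by ring
        _ ≤ t * (((t : ℝ) + n) * ∑ s ∈ S, e s) := mul_le_mul_of_nonneg_left h1 ht0
        _ = _ := by ring
    exact le_of_mul_le_mul_left h2 hp

end Pool.Agent.J4H31.TS
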