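import Pool.Agent.J4H31.TS.Main

set_option autoImplicit false

/-!
# Sets thickened by finite sets on the classes of a partition: the theorems (helper31)
-/

namespace Pool.Agent.J4H31.TS

open Finset Filter Topology

theorem fourth_root (N : ℕ) : (Nat.sqrt (Nat.sqrt N) : ℝ) ≤ (N : ℝ) ^ (1 / 4 : ℝ) := by
  have h1 : Nat.sqrt (Nat.sqrt N) ^ 4 ≤ N := by
    have e1 := Nat.sqrt_le' (Nat.sqrt N)
    have e2 := Nat.sqrt_le' N
    calc Nat.sqrt (Nat.sqrt N) ^ 4 = (Nat.sqrt (Nat.sqrt N) ^ 2) ^ 2 := by ring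
      _ ≤ Nat.sqrt N ^ 2 := Nat.pow_le_pow_left e1 2
      _ ≤ N := e2
  have h2 : ((Nat.sqrt (Nat.sqrt N) : ℝ)) ^ (4 : ℝ) ≤ N := by
    have : ((Nat.sqrt (Nat.sqrt N) : ℝ)) ^ (4 : ℕ) ≤ N := by exact_mod_cast h1
    exact_mod_cast this
  calc (Nat.sqrt (Nat.sqrt N) : ℝ) = (((Nat.sqrt (Nat.sqrt N) : ℝ)) ^ (4 : ℝ)) ^ (1 / 4 : ℝ) := by
        rw [← Real.rpow_mul (Nat.cast_nonneg _)]; norm_num
    _ ≤ (N : ℝ) ^ (1 / 4 : ℝ) := Real.rpow_le_rpow (by positivity) h2 (by norm_num)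

/-- the main result -/
theorem thick (β : ℕ → ℕ) (S : ℕ → Finset ℕ) (K : ℕ) (A B : Set ℕ)
    (hs : ∀ a ∈ A, ∀ s ∈ S (β a), s ≤ a)
    (hK : ∀ b, {j | ∃ a ∈ A, β a = j ∧ ∃ s ∈ S j, a + s = b}.encard ≤ K)
    (k : ℕ → ℕ) (hk : Monotone k) (hkS : ∀ a ∈ A, k a ≤ (S (β a)).card)
    (g : ℕ → ℝ) (hg1 : ∀ᶠ N : ℕ in atTop, 1 ≤ g N) (hg2 : ∀ᶠ N : ℕ in atTop, g N ≤ (N : ℝ) ^ (1 / 5 : ℝ))
    (hkg : Tendsto (fun N : ℕ => (k (Nat.sqrt (Nat.sqrt N)) : ℝ) / g N) atTop atTop)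
    (c : ℝ) (hc : 0 < c)
    (hA : ∀ δ : ℝ, 0 < δ → ∃ᶠ N : ℕ in atTop, c * Real.sqrt N / g N ≤ count A N ∧
      g N * bad A B β S N ≤ δ * count A N) :
    ∀ R : ℕ, ∃ n, R ≤ rep B n := by
  by_contra hcon
  push Not at hcon
  obtain ⟨R, hR'⟩ := hcon
  have hR1 : 1 ≤ R := by have := hR' 0; omega
  have hR : ∀ n, rep B n ≤ R := fun n => (hR' n).le
  obtain ⟨L, hL⟩ : ∃ L : ℝ, L = 4 * K * R ^ 2 / c + 1 := ⟨_, rfl⟩
  have hL1 : 1 ≤ L := by
    rw [hL]
    have : 0 ≤ 4 * (K : ℝ) * R ^ 2 / c := by positivity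
    linarith
  have hlim : Tendsto (fun N : ℕ => (N : ℝ) ^ (1 / 20 : ℝ)) atTop atTop :=
    (tendsto_rpow_atTop (by norm_num)).comp tendsto_natCast_atTop_atTop
  obtain ⟨N, ⟨hN1, hN2⟩, hN3, hN4, hN5, hN6, hN7⟩ := ((hA (1 / (8 * L)) (by positivity)).and_eventually
    ((hg1.and (hg2.and ((hkg.eventually_ge_atTop (2 * L)).and
      ((hlim.eventually_ge_atTop (4 / c)).and (eventually_ge_atTop 1))))))).exists
  have hg0 : 0 < g N := by linarith
  obtain ⟨t, htdef⟩ : ∃ t : ℕ, t = ⌈L * g N⌉₊ := ⟨_, rfl⟩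
  have hLg : 1 ≤ L * g N := by nlinarith
  have ht1 : L * g N ≤ t := by rw [htdef]; exact Nat.le_ceil _
  have ht2 : (t : ℝ) ≤ 2 * (L * g N) := by
    have := Nat.ceil_lt_add_one (show 0 ≤ L * g N by linarith)
    rw [htdef]
    linarith
  have ht0 : 1 ≤ t := by
    have : (1 : ℝ) ≤ t := hLg.trans ht1
    exact_mod_cast this
  have hNpos : (0 : ℝ) < N := by exact_mod_cast hN7
  have hkM : t ≤ k (Nat.sqrt (Nat.sqrt N)) := by
    have h1 : 2 * L * g N ≤ k (Nat.sqrt (Nat.sqrt N)) := (le_div_iff₀ hg0).1 hN5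
    have h2 : (t : ℝ) ≤ k (Nat.sqrt (Nat.sqrt N)) := by linarith
    exact_mod_cast h2
  have hx : 4 * ((Nat.sqrt (Nat.sqrt N) : ℕ) : ℝ) ≤ count A N := by
    refine le_trans ?_ hN1
    have h1 := fourth_root N
    have h2 : (N : ℝ) ^ (1 / 4 : ℝ) * (N : ℝ) ^ (1 / 20 : ℝ) * (N : ℝ) ^ (1 / 5 : ℝ) = Real.sqrt N := by
      rw [← Real.rpow_add hNpos, ← Real.rpow_add hNpos, Real.sqrt_eq_rpow]
      norm_num
    have h3 : c * ((N : ℝ) ^ (1 / 4 : ℝ) * (N : ℝ) ^ (1 / 20 : ℝ)) ≤ c * Real.sqrt N / g N := by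
      rw [le_div_iff₀ hg0, ← h2, mul_assoc]
      refine mul_le_mul_of_nonneg_left ?_ hc.le
      exact mul_le_mul_of_nonneg_left hN4 (by positivity)
    refine le_trans ?_ h3
    have h4 : 4 ≤ c * (N : ℝ) ^ (1 / 20 : ℝ) := by
      rw [div_le_iff₀ hc] at hN6
      linarith
    have h5 : (0 : ℝ) ≤ (N : ℝ) ^ (1 / 4 : ℝ) := by positivity
    calc 4 * ((Nat.sqrt (Nat.sqrt N) : ℕ) : ℝ) ≤ 4 * (N : ℝ) ^ (1 / 4 : ℝ) := by linarith
      _ ≤ (c * (N : ℝ) ^ (1 / 20 : ℝ)) * (N : ℝ) ^ (1 / 4 : ℝ) := mul_le_mul_of_nonneg_right h4 h5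
      _ = _ := by ring
  have hbad : 4 * (t * bad A B β S N) ≤ count A N := by
    have h0 := bad_nonneg A B β S N
    calc 4 * (t * bad A B β S N) ≤ 4 * (2 * (L * g N) * bad A B β S N) := by
          have := mul_le_mul_of_nonneg_right ht2 h0
          linarith
      _ = 8 * L * (g N * bad A B β S N) := by ring
      _ ≤ 8 * L * (1 / (8 * L) * count A N) := mul_le_mul_of_nonneg_left hN2 (by positivity)
      _ = count A N := by field_simp
  have hfin := one A B β S R K hR1 hR hs hK N (Nat.sqrt (Nat.sqrt N)) t ht0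
    (fun a ha hMa => hkM.trans ((hk hMa.le).trans (hkS a ha))) hx hbad
  have hsq : (0 : ℝ) < Real.sqrt N := Real.sqrt_pos.2 hNpos
  have h6 : L * g N * (c * Real.sqrt N / g N) ≤ t * count A N :=
    mul_le_mul ht1 hN1 (by positivity) (Nat.cast_nonneg t)
  have h7 : L * g N * (c * Real.sqrt N / g N) = L * c * Real.sqrt N := by
    field_simp
  have h8 : L * c = 4 * K * R ^ 2 + c := by
    rw [hL, add_mul, div_mul_cancel₀ _ hc.ne', one_mul]
  rw [h7, h8] at h6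
  nlinarith

/-- a function for every rate -/
theorem exists_g (k : ℕ → ℕ) (hk : Monotone k) (hk' : Tendsto k atTop atTop) (ε : ℕ → ℝ)
    (hε : Tendsto ε atTop (𝓝 0)) :
    ∃ g : ℕ → ℝ, Tendsto g atTop atTop ∧ ∀ (β : ℕ → ℕ) (S : ℕ → Finset ℕ) (K : ℕ) (A B : Set ℕ),
      (∀ a ∈ A, ∀ s ∈ S (β a), s ≤ a) →
      (∀ b, {j | ∃ a ∈ A, β a = j ∧ ∃ s ∈ S j, a + s = b}.encard ≤ K) →
      (∀ a ∈ A, k a ≤ (S (β a)).card) →
      (∀ᶠ N : ℕ in atTop, bad A B β S N ≤ ε N * count A N) →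
      (∃ c : ℝ, 0 < c ∧ ∃ᶠ N : ℕ in atTop, c * Real.sqrt N / g N ≤ count A N) →
      ∀ R : ℕ, ∃ n, R ≤ rep B n := by
  set g : ℕ → ℝ := fun N => min (min ((N : ℝ) ^ (1 / 5 : ℝ)) (Real.sqrt (k (Nat.sqrt (Nat.sqrt N)))))
    (Real.sqrt ((|ε N| + 1 / ((N : ℝ) + 1))⁻¹)) with hg
  have hsqrt : Tendsto Nat.sqrt atTop atTop := by
    refine tendsto_atTop.2 fun b => ?_
    filter_upwards [eventually_ge_atTop (b * b)] with N hN
    exact Nat.le_sqrt.2 hN
  have h1 : Tendsto (fun N : ℕ => (N : ℝ) ^ (1 / 5 : ℝ)) atTop atTop :=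
    (tendsto_rpow_atTop (by norm_num)).comp tendsto_natCast_atTop_atTop
  have h2' : Tendsto (fun N : ℕ => ((k (Nat.sqrt (Nat.sqrt N)) : ℕ) : ℝ)) atTop atTop :=
    tendsto_natCast_atTop_atTop.comp (hk'.comp (hsqrt.comp hsqrt))
  have h2 : Tendsto (fun N : ℕ => Real.sqrt (k (Nat.sqrt (Nat.sqrt N)))) atTop atTop :=
    Real.tendsto_sqrt_atTop.comp h2'
  have h3' : Tendsto (fun N : ℕ => |ε N| + 1 / ((N : ℝ) + 1)) atTop (𝓝[>] 0) := by
    refine tendsto_nhdsWithin_iff.2 ⟨?_, Eventually.of_forall fun N => ?_⟩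
    · have := hε.abs.add (tendsto_one_div_add_atTop_nhds_zero_nat (𝕜 := ℝ))
      simpa using this
    · have : (0 : ℝ) < 1 / ((N : ℝ) + 1) := by positivity
      have h := abs_nonneg (ε N)
      exact Set.mem_Ioi.2 (by linarith)
  have h3 : Tendsto (fun N : ℕ => Real.sqrt ((|ε N| + 1 / ((N : ℝ) + 1))⁻¹)) atTop atTop :=
    Real.tendsto_sqrt_atTop.comp (tendsto_inv_nhdsGT_zero.comp h3')
  have hgt : Tendsto g atTop atTop := by
    refine tendsto_atTop.2 fun b => ?_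
    filter_upwards [h1.eventually_ge_atTop b, h2.eventually_ge_atTop b, h3.eventually_ge_atTop b] with N e1 e2 e3
    exact le_min (le_min e1 e2) e3
  refine ⟨g, hgt, ?_⟩
  rintro β S K A B hs hK hkS hbad ⟨c, hc, hA⟩
  refine thick β S K A B hs hK k hk hkS g (hgt.eventually_ge_atTop 1) (Eventually.of_forall fun N => ?_) ?_ c hc ?_
  · exact (min_le_left _ _).trans (min_le_left _ _)
  · -- `k / g ≥ √k`
    refine tendsto_atTop_mono' _ ?_ h2
    filter_upwards [hgt.eventually_ge_atTop 1] with N hN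
    have e1 : g N ≤ Real.sqrt (k (Nat.sqrt (Nat.sqrt N))) := (min_le_left _ _).trans (min_le_right _ _)
    have e2 : 0 < g N := by linarith
    rw [le_div_iff₀ e2]
    calc Real.sqrt (k (Nat.sqrt (Nat.sqrt N))) * g N ≤
        Real.sqrt (k (Nat.sqrt (Nat.sqrt N))) * Real.sqrt (k (Nat.sqrt (Nat.sqrt N))) :=
          mul_le_mul_of_nonneg_left e1 (Real.sqrt_nonneg _)
      _ = _ := Real.mul_self_sqrt (Nat.cast_nonneg _)
  · intro δ hδ
    refine (hA.and_eventually ((hgt.eventually_ge_atTop (max 1 (1 / δ))).and hbad)).mono ?_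
    rintro N ⟨e1, e2, e3⟩
    refine ⟨e1, ?_⟩
    have e4 : 1 ≤ g N := (le_max_left _ _).trans e2
    have e5 : 1 / δ ≤ g N := (le_max_right _ _).trans e2
    have e6 : g N ≤ Real.sqrt ((|ε N| + 1 / ((N : ℝ) + 1))⁻¹) := min_le_right _ _
    have e7 : 0 < |ε N| + 1 / ((N : ℝ) + 1) := by
      have : (0 : ℝ) < 1 / ((N : ℝ) + 1) := by positivity
      have h := abs_nonneg (ε N)
      linarith
    have e8 : g N * g N ≤ (|ε N| + 1 / ((N : ℝ) + 1))⁻¹ := by
      have := mul_self_le_mul_self (by linarith : (0 : ℝ) ≤ g N) e6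
      rwa [Real.mul_self_sqrt (inv_nonneg.2 e7.le)] at this
    have e9 : g N * g N * |ε N| ≤ 1 := by
      have h : g N * g N * (|ε N| + 1 / ((N : ℝ) + 1)) ≤ 1 := by
        have := mul_le_mul_of_nonneg_right e8 e7.le
        rwa [inv_mul_cancel₀ e7.ne'] at this
      have h' : 0 ≤ g N * g N * (1 / ((N : ℝ) + 1)) := by positivity
      nlinarith
    have e10 : g N * |ε N| ≤ δ := by
      have h : 1 ≤ δ * g N := by
        rw [div_le_iff₀ hδ] at e5
        linarith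
      have h0 : 0 ≤ g N * |ε N| := by positivity
      nlinarith
    have e11 : bad A B β S N ≤ |ε N| * count A N :=
      e3.trans (mul_le_mul_of_nonneg_right (le_abs_self _) (Nat.cast_nonneg _))
    calc g N * bad A B β S N ≤ g N * (|ε N| * count A N) := mul_le_mul_of_nonneg_left e11 (by linarith)
      _ = g N * |ε N| * count A N := by ring
      _ ≤ δ * count A N := mul_le_mul_of_nonneg_right e10 (Nat.cast_nonneg _)

open Classical in
/-- one infinite set -/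
theorem infinite_set (S A : Set ℕ) (g : ℕ → ℝ) (hg : ∀ N, 0 < g N)
    (hS : Tendsto (fun N : ℕ => (count S N : ℝ) / g N) atTop atTop) (c : ℝ) (hc : 0 < c)
    (hA : ∃ᶠ N : ℕ in atTop, c * Real.sqrt N / g N ≤ count A N) :
    ∀ R : ℕ, ∃ n, R ≤ rep {b | ∃ a ∈ A, ∃ s ∈ S, a + s = b} n := by
  by_contra hcon
  push Not at hcon
  obtain ⟨R, hR'⟩ := hcon
  set B : Set ℕ := {b | ∃ a ∈ A, ∃ s ∈ S, a + s = b} with hB
  have hR1 : 1 ≤ R := by have := hR' 0; omega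
  have hR : ∀ n, rep B n ≤ R := fun n => (hR' n).le
  obtain ⟨N, hN1, hN2, hN3⟩ := (hA.and_eventually
    ((hS.eventually_ge_atTop (2 * R ^ 2 / c + 1)).and (eventually_ge_atTop 1))).exists
  have hNpos : (0 : ℝ) < N := by exact_mod_cast hN3
  have c6 := pairs B R hR (fun _ => 0) ((Icc 1 N).filter fun a => a ∈ A) (fun _ => (Icc 1 N).filter fun a => a ∈ S)
    (count S N) N 1 (fun a ha => mem_Icc.1 (mem_filter.1 ha).1) (fun a _ => (count_eq S N).symm)
    (fun a ha s hs => ⟨a, (mem_filter.1 ha).2, s, (mem_filter.1 hs).2, rfl⟩)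
    (fun a _ s hs => (mem_Icc.1 (mem_filter.1 hs).1).2) (fun b => ⟨{0}, by simp, fun a _ s _ _ => by simp⟩)
    ((Icc 1 (2 * N)).filter fun b => b ∈ B) (by
      intro b
      rw [mem_filter, mem_Icc]
      tauto)
  have c7 := card_sq B R hR (2 * N) ((Icc 1 (2 * N)).filter fun b => b ∈ B) (by
      intro b
      rw [mem_filter, mem_Icc]
      tauto)
  have c8 := sqrt_bound R N _ hR1 c7
  rw [← count_eq, one_mul] at c6
  have c9 : (count S N : ℝ) * count A N ≤ R * ((Icc 1 (2 * N)).filter fun b => b ∈ B).card := by exact_mod_cast c6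
  have c10 : (R : ℝ) * ((Icc 1 (2 * N)).filter fun b => b ∈ B).card ≤ R * (2 * R * Real.sqrt N) :=
    mul_le_mul_of_nonneg_left c8 (by positivity)
  have hg0 := hg N
  have hsq : (0 : ℝ) < Real.sqrt N := Real.sqrt_pos.2 hNpos
  have c11 : (2 * R ^ 2 / c + 1) * g N ≤ count S N := (le_div_iff₀ hg0).1 hN2
  have c12 : (2 * R ^ 2 / c + 1) * g N * (c * Real.sqrt N / g N) ≤ count S N * count A N :=
    mul_le_mul c11 hN1 (by positivity) (Nat.cast_nonneg _)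
  have c13 : (2 * R ^ 2 / c + 1) * g N * (c * Real.sqrt N / g N) = (2 * R ^ 2 + c) * Real.sqrt N := by
    field_simp
  rw [c13] at c12
  nlinarith

/-- thickening by a fixed finite set -/
theorem finite_set (F : Finset ℕ) (hF : F.Nonempty) (A : Set ℕ) :
    (∃ R : ℕ, ∀ n, rep {b | ∃ a ∈ A, ∃ s ∈ F, a + s = b} n ≤ R) ↔ ∃ R : ℕ, ∀ n, rep A n ≤ R := by
  classical
  constructor
  · rintro ⟨R, hR⟩
    obtain ⟨s, hs⟩ := hF
    refine ⟨R, fun n => ?_⟩
    refine le_trans ?_ (hR (n + 2 * s))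
    unfold rep
    refine Set.ncard_le_ncard_of_injOn (fun p => (p.1 + s, p.2 + s)) ?_ ?_ (rep_finite _ _)
    · rintro p ⟨h1, h2, h3⟩
      exact ⟨⟨p.1, h1, s, hs, rfl⟩, ⟨p.2, h2, s, hs, rfl⟩, by simp only; omega⟩
    · intro p _ q _ h
      have e1 := (Prod.mk.inj h).1
      have e2 := (Prod.mk.inj h).2
      exact Prod.ext (by omega) (by omega)
  · rintro ⟨R, hR⟩
    refine ⟨(F ×ˢ F).card * R, fun n => ?_⟩
    set B : Set ℕ := {b | ∃ a ∈ A, ∃ s ∈ F, a + s = b} with hB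
    have hfin := rep_finite B n
    have h1 : rep B n = hfin.toFinset.card := Set.ncard_eq_toFinset_card _ hfin
    have hex : ∀ b, ∃ s, b ∈ B → s ∈ F ∧ s ≤ b ∧ b - s ∈ A := by
      intro b
      by_cases hb : b ∈ B
      · obtain ⟨a, ha, s, hs, rfl⟩ := hb
        exact ⟨s, fun _ => ⟨hs, by omega, by simpa using ha⟩⟩
      · exact ⟨0, fun h => absurd h hb⟩
    choose σ hσ using hex
    have h2 := card_le_mul_card_image (f := fun p : ℕ × ℕ => (σ p.1, σ p.2)) hfin.toFinset R (by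
      rintro ⟨s, s'⟩ _
      have hinj : Set.InjOn (fun p : ℕ × ℕ => (p.1 - s, p.2 - s'))
          (hfin.toFinset.filter fun p : ℕ × ℕ => (σ p.1, σ p.2) = (s, s') : Finset (ℕ × ℕ)) := by
        intro p hp q hq h
        rw [mem_coe, mem_filter, Set.Finite.mem_toFinset] at hp hq
        obtain ⟨⟨hp1, hp2, -⟩, hp3⟩ := hp
        obtain ⟨⟨hq1, hq2, -⟩, hq3⟩ := hq
        have a1 := (Prod.mk.inj hp3).1
        have a2 := (Prod.mk.inj hp3).2
        have a3 := (Prod.mk.inj hq3).1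
        have a4 := (Prod.mk.inj hq3).2
        have b1 := (hσ _ hp1).2.1
        have b2 := (hσ _ hp2).2.1
        have b3 := (hσ _ hq1).2.1
        have b4 := (hσ _ hq2).2.1
        have e1 := (Prod.mk.inj h).1
        have e2 := (Prod.mk.inj h).2
        exact Prod.ext (by omega) (by omega)
      rw [← card_image_of_injOn hinj]
      refine (card_le_rep A (n - s - s') _ ?_).trans (hR _)
      intro p hp
      rw [mem_image] at hp
      obtain ⟨q, hq, rfl⟩ := hp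
      rw [mem_filter, Set.Finite.mem_toFinset] at hq
      obtain ⟨⟨hq1, hq2, hq4⟩, hq3⟩ := hq
      have a3 := (Prod.mk.inj hq3).1
      have a4 := (Prod.mk.inj hq3).2
      have b3 := hσ _ hq1
      have b4 := hσ _ hq2
      rw [a3] at b3
      rw [a4] at b4
      refine ⟨b3.2.2, b4.2.2, ?_⟩
      simp only
      omega)
    rw [h1, mul_comm]
    refine h2.trans (Nat.mul_le_mul_left _ (card_le_card ?_))
    intro p hp
    rw [mem_image] at hp
    obtain ⟨q, hq, rfl⟩ := hp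
    rw [Set.Finite.mem_toFinset] at hq
    rw [mem_product]
    exact ⟨(hσ _ hq.1).1, (hσ _ hq.2.1).1⟩

end Pool.Agent.J4H31.TS
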