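import Pool.Agent.J4H31.TS.Core

set_option autoImplicit false

/-!
# Sets thickened by finite sets on the classes of a partition (helper31)
-/

namespace Pool.Agent.J4H31.TS

open Finset Filter Topology

/-- the number of elements of `A` in `[1, N]` -/
noncomputable def count (A : Set ℕ) (N : ℕ) : ℕ := (A ∩ Set.Icc 1 N).ncard

open Classical in
/-- the exceptions: the sum over the `a ∈ A` in `[1, N]` of the proportion of the `s ∈ S (β a)` with `a + s ∉ B` -/
noncomputable def bad (A B : Set ℕ) (β : ℕ → ℕ) (S : ℕ → Finset ℕ) (N : ℕ) : ℝ :=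
  ∑ a ∈ (Icc 1 N).filter fun a => a ∈ A, (((S (β a)).filter fun s => a + s ∉ B).card : ℝ) / (S (β a)).card

open Classical in
theorem count_eq (A : Set ℕ) (N : ℕ) : count A N = ((Icc 1 N).filter fun a => a ∈ A).card := by
  unfold count
  rw [← Set.ncard_coe_finset]
  congr 1
  ext a
  rw [mem_coe, mem_filter, mem_Icc, Set.mem_inter_iff, Set.mem_Icc]
  tauto

theorem bad_nonneg (A B : Set ℕ) (β : ℕ → ℕ) (S : ℕ → Finset ℕ) (N : ℕ) : 0 ≤ bad A B β S N :=
  sum_nonneg fun _ _ => by positivity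

open Classical in
/-- choice of the subsets -/
theorem choice (B : Set ℕ) (β : ℕ → ℕ) (S : ℕ → Finset ℕ) (A : Finset ℕ) (t : ℕ) (h : ∀ a ∈ A, t ≤ (S (β a)).card)
    (ht : 1 ≤ t) :
    ∃ T : ℕ → Finset ℕ, (∀ a ∈ A, T (β a) ⊆ S (β a) ∧ (T (β a)).card = t) ∧
      ((A.filter fun a => ¬ ∀ s ∈ T (β a), a + s ∈ B).card : ℝ) ≤
        t * ∑ a ∈ A, (((S (β a)).filter fun s => a + s ∉ B).card : ℝ) / (S (β a)).card := by
  let e : ℕ → ℕ → ℝ := fun j s => (((A.filter fun a => β a = j).filter fun a => a + s ∉ B).card : ℝ)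
  have hsel : ∀ j, ∃ T : Finset ℕ, (t ≤ (S j).card → T ⊆ S j ∧ T.card = t ∧
      ((S j).card : ℝ) * ∑ s ∈ T, e j s ≤ t * ∑ s ∈ S j, e j s) := by
    intro j
    by_cases hj : t ≤ (S j).card
    · obtain ⟨T, h1, h2, h3⟩ := select (e j) t ((S j).card - t) (S j) (by omega)
      exact ⟨T, fun _ => ⟨h1, h2, h3⟩⟩
    · exact ⟨∅, fun h => absurd h hj⟩
  choose T hT using hsel
  refine ⟨T, fun a ha => ⟨(hT _ (h a ha)).1, (hT _ (h a ha)).2.1⟩, ?_⟩
  have key : ∀ (U : ℕ → Finset ℕ) (j : ℕ), ∑ a ∈ A.filter (fun a => β a = j),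
      (((U (β a)).filter fun s => a + s ∉ B).card : ℝ) = ∑ s ∈ U j, e j s := by
    intro U j
    have h1 : ∀ a ∈ A.filter (fun a => β a = j), (((U (β a)).filter fun s => a + s ∉ B).card : ℝ) =
        ∑ s ∈ U j, if a + s ∉ B then (1 : ℝ) else 0 := by
      intro a ha
      rw [(mem_filter.1 ha).2, card_filter]
      push_cast
      rfl
    rw [sum_congr rfl h1, sum_comm]
    refine sum_congr rfl fun s _ => ?_
    simp only [e]
    rw [card_filter (fun a => a + s ∉ B)]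
    push_cast
    rfl
  have hmaps : ∀ a ∈ A, β a ∈ A.image β := fun a ha => mem_image_of_mem _ ha
  calc ((A.filter fun a => ¬ ∀ s ∈ T (β a), a + s ∈ B).card : ℝ)
      ≤ ∑ a ∈ A, (((T (β a)).filter fun s => a + s ∉ B).card : ℝ) := by
        rw [card_filter, Nat.cast_sum]
        simp only [Nat.cast_ite, Nat.cast_one, Nat.cast_zero]
        refine sum_le_sum fun a _ => ?_
        by_cases hh : ∀ s ∈ T (β a), a + s ∈ B
        · rw [if_neg (not_not.2 hh)]
          positivity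
        · rw [if_pos hh]
          push Not at hh
          obtain ⟨s, hs1, hs2⟩ := hh
          have : 0 < ((T (β a)).filter fun s => a + s ∉ B).card := card_pos.2 ⟨s, mem_filter.2 ⟨hs1, hs2⟩⟩
          exact_mod_cast this
    _ = ∑ j ∈ A.image β, ∑ a ∈ A.filter (fun a => β a = j), (((T (β a)).filter fun s => a + s ∉ B).card : ℝ) :=
        (sum_fiberwise_of_maps_to hmaps _).symm
    _ = ∑ j ∈ A.image β, ∑ s ∈ T j, e j s := sum_congr rfl fun j _ => key T j
    _ ≤ ∑ j ∈ A.image β, ((t : ℝ) / (S j).card) * ∑ s ∈ S j, e j s := by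
        refine sum_le_sum fun j hj => ?_
        rw [mem_image] at hj
        obtain ⟨a, ha, rfl⟩ := hj
        have h1 := h a ha
        have h2 : (0 : ℝ) < (S (β a)).card := by
          have : 0 < (S (β a)).card := by omega
          exact_mod_cast this
        rw [div_mul_eq_mul_div, le_div_iff₀ h2, mul_comm]
        exact (hT _ h1).2.2
    _ = ∑ j ∈ A.image β, ∑ a ∈ A.filter (fun a => β a = j),
          t * ((((S (β a)).filter fun s => a + s ∉ B).card : ℝ) / (S (β a)).card) := by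
        refine sum_congr rfl fun j _ => ?_
        rw [← key S j, mul_sum]
        refine sum_congr rfl fun a ha => ?_
        rw [(mem_filter.1 ha).2]
        ring
    _ = ∑ a ∈ A, t * ((((S (β a)).filter fun s => a + s ∉ B).card : ℝ) / (S (β a)).card) :=
        sum_fiberwise_of_maps_to hmaps _
    _ = _ := by rw [mul_sum]

theorem sqrt_bound (R N b : ℕ) (hR : 1 ≤ R) (h : b ^ 2 ≤ R * (2 * (2 * N))) : (b : ℝ) ≤ 2 * R * Real.sqrt N := by
  have h1 : (b : ℝ) ^ 2 ≤ R * (2 * (2 * N)) := by exact_mod_cast h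
  have h2 : (0 : ℝ) ≤ 2 * R * Real.sqrt N := by positivity
  have hR' : (1 : ℝ) ≤ R := by exact_mod_cast hR
  rw [← pow_le_pow_iff_left₀ (Nat.cast_nonneg b) h2 two_ne_zero, mul_pow, Real.sq_sqrt (Nat.cast_nonneg N)]
  have h3 : (0 : ℝ) ≤ N := Nat.cast_nonneg N
  nlinarith [mul_nonneg h3 (sub_nonneg.2 hR'), mul_nonneg (mul_nonneg h3 (sub_nonneg.2 hR')) (Nat.cast_nonneg R : (0 : ℝ) ≤ R)]

open Classical in
/-- the inequality for one `N` -/
theorem one (A B : Set ℕ) (β : ℕ → ℕ) (S : ℕ → Finset ℕ) (R K : ℕ) (hR1 : 1 ≤ R) (hR : ∀ n, rep B n ≤ R)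
    (hs : ∀ a ∈ A, ∀ s ∈ S (β a), s ≤ a)
    (hK : ∀ b, {j | ∃ a ∈ A, β a = j ∧ ∃ s ∈ S j, a + s = b}.encard ≤ K)
    (N M t : ℕ) (ht : 1 ≤ t) (hM : ∀ a ∈ A, M < a → t ≤ (S (β a)).card)
    (h1 : 4 * (M : ℝ) ≤ count A N) (h2 : 4 * (t * bad A B β S N) ≤ count A N) :
    (t : ℝ) * count A N ≤ 4 * K * R ^ 2 * Real.sqrt N := by
  set AN := (Icc 1 N).filter fun a => a ∈ A with hAN
  set Ap := AN.filter fun a => M < a with hAp
  obtain ⟨T, hT, hT'⟩ := choice B β S Ap t (fun a ha => hM a (mem_filter.1 (mem_filter.1 ha).1).2 (mem_filter.1 ha).2) ht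
  set A' := Ap.filter fun a => ∀ s ∈ T (β a), a + s ∈ B with hA'
  have c1 : (count A N : ℝ) = AN.card := by rw [count_eq]
  have c2 : AN.card ≤ Ap.card + M := by
    have e1 : AN ⊆ Ap ∪ Icc 1 M := by
      intro a ha
      rw [mem_union, hAp, mem_filter, mem_Icc]
      rw [hAN, mem_filter, mem_Icc] at ha
      by_cases h : M < a
      · exact Or.inl ⟨by rw [hAN, mem_filter, mem_Icc]; exact ha, h⟩
      · exact Or.inr ⟨ha.1.1, by omega⟩
    refine (card_le_card e1).trans ((card_union_le _ _).trans ?_)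
    simp
  have c3 : Ap.card = A'.card + (Ap.filter fun a => ¬ ∀ s ∈ T (β a), a + s ∈ B).card :=
    (card_filter_add_card_filter_not _).symm
  have c4 : ((Ap.filter fun a => ¬ ∀ s ∈ T (β a), a + s ∈ B).card : ℝ) ≤ t * bad A B β S N := by
    refine hT'.trans (mul_le_mul_of_nonneg_left ?_ (Nat.cast_nonneg t))
    unfold bad
    exact sum_le_sum_of_subset_of_nonneg (filter_subset _ _) fun _ _ _ => by positivity
  have c5 : (count A N : ℝ) ≤ 2 * A'.card := by
    have e1 : (AN.card : ℝ) ≤ Ap.card + M := by exact_mod_cast c2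
    have e2 : (Ap.card : ℝ) = A'.card + (Ap.filter fun a => ¬ ∀ s ∈ T (β a), a + s ∈ B).card := by exact_mod_cast c3
    linarith
  have hA'mem : ∀ a ∈ A', a ∈ A ∧ 1 ≤ a ∧ a ≤ N ∧ T (β a) ⊆ S (β a) ∧ (T (β a)).card = t ∧ ∀ s ∈ T (β a), a + s ∈ B := by
    intro a ha
    rw [hA', mem_filter] at ha
    have h3 := hT a ha.1
    have h4 := (mem_filter.1 (mem_filter.1 ha.1).1)
    have h5 := mem_Icc.1 h4.1
    exact ⟨h4.2, h5.1, h5.2, h3.1, h3.2, ha.2⟩
  have c6 := pairs B R hR β A' T t N K (fun a ha => ⟨(hA'mem a ha).2.1, (hA'mem a ha).2.2.1⟩)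
    (fun a ha => (hA'mem a ha).2.2.2.2.1) (fun a ha => (hA'mem a ha).2.2.2.2.2)
    (fun a ha s hs' => (hs a (hA'mem a ha).1 s ((hA'mem a ha).2.2.2.1 hs')).trans (hA'mem a ha).2.2.1)
    (by
      intro b
      have hfin : {j | ∃ a ∈ A, β a = j ∧ ∃ s ∈ S j, a + s = b}.Finite := by
        refine ((Icc 0 b).image β).finite_toSet.subset ?_
        rintro j ⟨a, _, rfl, s, _, h⟩
        rw [mem_coe, mem_image]
        exact ⟨a, mem_Icc.2 ⟨Nat.zero_le _, by omega⟩, rfl⟩
      refine ⟨hfin.toFinset, ?_, ?_⟩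
      · have := hK b
        rw [hfin.encard_eq_coe_toFinset_card] at this
        exact_mod_cast this
      · intro a ha s hs' hab
        rw [Set.Finite.mem_toFinset]
        exact ⟨a, (hA'mem a ha).1, rfl, s, (hA'mem a ha).2.2.2.1 hs', hab⟩)
    ((Icc 1 (2 * N)).filter fun b => b ∈ B) (by
      intro b
      rw [mem_filter, mem_Icc]
      tauto)
  have c7 := card_sq B R hR (2 * N) ((Icc 1 (2 * N)).filter fun b => b ∈ B) (by
      intro b
      rw [mem_filter, mem_Icc]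
      tauto)
  have c8 := sqrt_bound R N _ hR1 c7
  have c9 : (t : ℝ) * A'.card ≤ K * R * ((Icc 1 (2 * N)).filter fun b => b ∈ B).card := by exact_mod_cast c6
  have c10 : (K : ℝ) * R * ((Icc 1 (2 * N)).filter fun b => b ∈ B).card ≤ K * R * (2 * R * Real.sqrt N) :=
    mul_le_mul_of_nonneg_left c8 (by positivity)
  have c11 : (t : ℝ) * count A N ≤ t * (2 * A'.card) := mul_le_mul_of_nonneg_left c5 (Nat.cast_nonneg t)
  nlinarith

end Pool.Agent.J4H31.TS
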